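import Mathlib
set_option autoImplicit false
open Finset
namespace Pool.Agent.Results.MP_e1d67a_co.Apery

structure NS (e m : ℕ) (n : Fin e → ℕ) : Prop where
  fin : {x | ¬∃ a, a ⬝ᵥ n = x}.Finite
  min : ∀ i a, a ⬝ᵥ n = n i → a i ≠ 0
  mult : IsLeast {x | x ≠ 0 ∧ ∃ a, a ⬝ᵥ n = x} m

def Gen {e : ℕ} (n : Fin e → ℕ) (R : Finset ((Fin e → ℕ) × (Fin e → ℕ))) : Prop :=
  ∀ a b, addConGen (fun x y => (x, y) ∈ R) a b ↔ a ⬝ᵥ n = b ⬝ᵥ n

noncomputable def eta {e : ℕ} (n : Fin e → ℕ) : ℕ := sInf {k | ∃ R, Gen n R ∧ R.card = k}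

def UF {e : ℕ} (m : ℕ) (n : Fin e → ℕ) : Prop :=
  ∀ a b, (¬∃ c, a ⬝ᵥ n = c ⬝ᵥ n + m) → a ⬝ᵥ n = b ⬝ᵥ n → a = b

lemma low {e m : ℕ} {n : Fin e → ℕ} (pos : ∀ i, 0 < n i) (U : UF m n) (M : Finset (Fin e → ℕ))
    (h1 : ∀ u ∈ M, ∀ b < u, ¬∃ c, b ⬝ᵥ n = c ⬝ᵥ n + m) (h2 : ∀ u ∈ M, ∃ w ∉ M, u ⬝ᵥ n = w ⬝ᵥ n)
    (R) (hR : Gen n R) : M.card ≤ R.card := by
  classical
  let E (a : Fin e → ℕ) : M → ℚ := fun u => if u.1 = a then 1 else 0
  have E0 (a) (h : a ∉ M) : E a = 0 := funext fun u => if_neg fun q : u.1 = a => h (q ▸ u.2)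
  let W := Submodule.span ℚ ((R.image fun x => E x.1 - E x.2 : Finset _) : Set (M → ℚ))
  have z (a b : Fin e → ℕ) (h : a ⬝ᵥ n = b ⬝ᵥ n) (q : a = 0) : b = 0 := by
    rw [q, zero_dotProduct, eq_comm, dotProduct, sum_eq_zero_iff] at h
    exact funext fun i => (mul_eq_zero.1 (h i (mem_univ _))).resolve_right (pos i).ne'
  have key (a b c d) (p : a ⬝ᵥ n = b ⬝ᵥ n ∧ E a - E b ∈ W) (q : c ⬝ᵥ n = d ⬝ᵥ n ∧ E c - E d ∈ W)
      (h : a + c ∈ M) : E (a + c) - E (b + d) ∈ W := by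
    by_cases a0 : a = 0
    · rw [z a b p.1 a0, a0, zero_add, zero_add]; exact q.2
    by_cases c0 : c = 0
    · rw [z c d q.1 c0, c0, add_zero, add_zero]; exact p.2
    rw [U a b (h1 _ h a (lt_of_le_of_ne le_self_add (by simpa using c0))) p.1,
      U c d (h1 _ h c (lt_of_le_of_ne le_add_self (by simpa using a0))) q.1, sub_self]
    exact W.zero_mem
  have sy {a b} (p : a ⬝ᵥ n = b ⬝ᵥ n ∧ E a - E b ∈ W) : b ⬝ᵥ n = a ⬝ᵥ n ∧ E b - E a ∈ W :=
    ⟨p.1.symm, by simpa using W.neg_mem p.2⟩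
  let C : AddCon (Fin e → ℕ) :=
    { r := fun a b => a ⬝ᵥ n = b ⬝ᵥ n ∧ E a - E b ∈ W
      iseqv := ⟨fun a => ⟨rfl, by simp⟩, sy, fun p q => ⟨p.1.trans q.1, by
        simpa using W.add_mem p.2 q.2⟩⟩
      add' := fun {a b c d} p q => ⟨by rw [add_dotProduct, add_dotProduct, p.1, q.1], by
        by_cases h : a + c ∈ M
        · exact key a b c d p q h
        by_cases h' : b + d ∈ M
        · simpa using W.neg_mem (key b a d c (sy p) (sy q) h')
        · simp [E0 _ h, E0 _ h']⟩ }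
  have le : addConGen (fun x y => (x, y) ∈ R) ≤ C := AddCon.addConGen_le.2 fun x y h =>
    ⟨(hR x y).1 (AddConGen.Rel.of _ _ h), Submodule.subset_span (mem_image_of_mem _ h)⟩
  have top : W = ⊤ := by
    rw [eq_top_iff, ← (Pi.basisFun ℚ M).span_eq, Submodule.span_le]
    rintro _ ⟨u, rfl⟩
    obtain ⟨w, w1, w2⟩ := h2 u.1 u.2
    have := (le ((hR _ _).2 w2)).2
    rw [E0 w w1, sub_zero] at this
    rwa [show Pi.basisFun ℚ M u = E u from funext fun v => by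
      simp only [E, Pi.basisFun_apply, Pi.single_apply, Subtype.coe_inj]]
  have := finrank_span_finset_le_card (R := ℚ) (R.image fun x => E x.1 - E x.2)
  rw [Set.finrank, show Submodule.span _ _ = ⊤ from top, finrank_top, Module.finrank_fintype_fun_eq_card,
    Fintype.card_coe] at this
  exact this.trans card_image_le

lemma main {e m : ℕ} {n : Fin e → ℕ} (h : NS e m n) : ∃ n' k, NS e m n' ∧ UF m n' ∧
    (∃ R, Gen n R ∧ R.card ≤ k) ∧ (∀ R, Gen n' R → k ≤ R.card) ∧ k ≤ (m + 1) ^ e := by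
  classical
  obtain ⟨⟨m0, a0, ha0⟩, lb⟩ := h.mult
  replace m0 := Nat.pos_of_ne_zero m0
  have ge (i) : m ≤ n i := lb ⟨fun q => h.min i 0 (by simp [q]) rfl, Pi.single i 1, by simp⟩
  obtain ⟨o, ho⟩ : ∃ o, n o = m := by
    obtain ⟨o, -, q⟩ := exists_ne_zero_of_sum_ne_zero (s := univ) (f := fun i => a0 i * n i)
      (ha0.trans_ne m0.ne')
    have := single_le_sum (f := fun i => a0 i * n i) (fun _ _ => Nat.zero_le _) (mem_univ o)
    have := Nat.le_mul_of_pos_left (n o) (Nat.pos_of_ne_zero (left_ne_zero_of_mul q))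
    exact ⟨o, le_antisymm (by rw [← ha0, dotProduct]; omega) (ge o)⟩
  obtain ⟨K, hK⟩ : ∃ K, K = ∑ i : Fin e, m * m ^ i.1 := ⟨_, rfl⟩
  obtain ⟨p, hp⟩ : ∃ p, p = Function.update n o 0 := ⟨_, rfl⟩
  obtain ⟨t, ht⟩ : ∃ t, t = Function.update (fun i : Fin e => m ^ i.1) o 0 := ⟨_, rfl⟩
  obtain ⟨N, hN⟩ : ∃ N, N = (1 + K * m) • p + m • t + Pi.single o m := ⟨_, rfl⟩
  have e1 (a) : a ⬝ᵥ n = a ⬝ᵥ p + a o * m := by
    rw [← dotProduct_single, ← dotProduct_add]
    congr 1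
    ext i
    by_cases q : i = o <;> simp [hp, q, ho]
  have e2 (a) : a ⬝ᵥ N = (1 + K * m) * (a ⬝ᵥ p) + m * (a ⬝ᵥ t) + a o * m := by
    simp only [hN, dotProduct_add, dotProduct_smul, dotProduct_single, smul_eq_mul]
  have po : p o = 0 := by simp [hp]
  have to' : t o = 0 := by simp [ht]
  have No : N o = m := by simp [hN, po, to']
  have gN (i) : m ≤ N i := by
    by_cases q : i = o
    · rw [q, No]
    · have := ge i
      simp [hN, hp, q]
      nlinarith [Nat.zero_le (K * m * n i), Nat.zero_le (m * t i)]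
  have cg (a) : a ⬝ᵥ N ≡ a ⬝ᵥ n [MOD m] := by
    rw [e1, e2, show (1 + K * m) * (a ⬝ᵥ p) + m * (a ⬝ᵥ t) + a o * m =
      a ⬝ᵥ p + a o * m + m * (K * (a ⬝ᵥ p) + a ⬝ᵥ t) by ring]
    exact Nat.add_mul_mod_self_left ..
  have tb (a : Fin e → ℕ) (q : ∀ i, a i ≤ m) : a ⬝ᵥ t ≤ K := by
    rw [hK]
    refine sum_le_sum fun i _ => Nat.mul_le_mul (q i) ?_
    by_cases q : i = o <;> simp [ht, q]
  obtain ⟨D, hD⟩ : ∃ D : (Fin e → ℕ) → Prop, ∀ a, D a ↔ ¬∃ c, a ⬝ᵥ N = c ⬝ᵥ N + m :=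
    ⟨_, fun _ => Iff.rfl⟩
  have dn {a b} (q : D a) (l : b ≤ a) : D b := by
    obtain ⟨c, rfl⟩ := exists_add_of_le l
    rw [hD] at q ⊢
    exact fun ⟨x, hx⟩ => q ⟨x + c, by rw [add_dotProduct, add_dotProduct, hx]; ring⟩
  have sl (a : Fin e → ℕ) (i k) (q : k ≤ a i) : Pi.single i k ≤ a := fun j => by
    by_cases r : j = i <;> simp [r, q]
  have n1 (i) : ¬D (Pi.single i m) := fun q => (hD _).1 q ⟨Pi.single o (N i - 1), by
    obtain ⟨x, hx⟩ := Nat.exists_eq_add_of_le' (m0.trans_le (gN i))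
    simp [No, hx]
    ring⟩
  have d0 {a} (q : D a) : a o = 0 := by
    by_contra r
    exact (hD _).1 (dn q (sl a o 1 (by omega))) ⟨0, by simp [No]⟩
  have d1 {a} (q : D a) (i) : a i < m := not_le.1 fun r => n1 i (dn q (sl a i m r))
  have U : UF m N := by
    intro a b q r
    have qb : D b := (hD _).2 (r ▸ q)
    have qa := (hD _).2 q
    have t1 := tb a fun i => (d1 qa i).le
    have t2 := tb b fun i => (d1 qb i).le
    rw [e2, e2, d0 qa, d0 qb] at r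
    have r1 : a ⬝ᵥ p = b ⬝ᵥ p := by
      rcases lt_trichotomy (a ⬝ᵥ p) (b ⬝ᵥ p) with l | l | l
      · nlinarith [Nat.mul_le_mul_left (1 + K * m) l, Nat.mul_le_mul_left m t1,
          Nat.zero_le (m * (b ⬝ᵥ t))]
      · exact l
      · nlinarith [Nat.mul_le_mul_left (1 + K * m) l, Nat.mul_le_mul_left m t2,
          Nat.zero_le (m * (a ⬝ᵥ t))]
    have r2 : a ⬝ᵥ t = b ⬝ᵥ t := Nat.eq_of_mul_eq_mul_left m0 (by rw [r1] at r; omega)
    have f (a) (q : D a) : (finFunctionFinEquiv fun i => (⟨a i, d1 q i⟩ : Fin m) : ℕ) = a ⬝ᵥ t :=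
      (finFunctionFinEquiv_apply _).trans (sum_congr rfl fun i _ => by
        by_cases r : i = o <;> simp [ht, r, d0 q])
    have := finFunctionFinEquiv.injective (Fin.ext ((f a qa).trans (r2.trans (f b qb).symm)))
    exact funext fun i => congrArg Fin.val (congrFun this i)
  have mn {v} (q : D v) (w) (r : w ⬝ᵥ N ≡ v ⬝ᵥ N [MOD m]) : v ⬝ᵥ N ≤ w ⬝ᵥ N := by
    by_contra! l
    obtain ⟨k, hk⟩ := (Nat.modEq_iff_dvd' l.le).1 r
    obtain ⟨k, rfl⟩ := Nat.exists_eq_add_of_le' (show 1 ≤ k from Nat.pos_of_ne_zero (by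
      rintro rfl; omega))
    refine (hD _).1 q ⟨w + Pi.single o k, ?_⟩
    rw [add_dotProduct, single_dotProduct, No, mul_comm]
    rw [mul_add] at hk
    omega
  let M := (Fintype.piFinset fun _ => range (m + 1)).filter fun u => u o = 0 ∧ ¬D u ∧ ∀ b < u, D b
  have mM {u} : u ∈ M ↔ (∀ i, u i ≤ m) ∧ u o = 0 ∧ ¬D u ∧ ∀ b < u, D b := by
    simp [M]
  have rho (u) (hu : u ∈ M) : ∃ w, u ⬝ᵥ n = w ⬝ᵥ n ∧
      (1 + K * m) * (w ⬝ᵥ p) + m * (w ⬝ᵥ t) < (1 + K * m) * (u ⬝ᵥ p) + m * (u ⬝ᵥ t) := by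
    obtain ⟨u1, u2, u3, -⟩ := mM.1 hu
    obtain ⟨c, hc⟩ := not_not.1 (mt (hD u).2 u3)
    obtain ⟨v, v1, v2⟩ := exists_minimalFor_of_wellFoundedLT (fun v => v ⬝ᵥ N ≡ u ⬝ᵥ N [MOD m])
      (· ⬝ᵥ N) ⟨u, Nat.ModEq.refl _⟩
    have v3 (x) (hx : x ⬝ᵥ N + m ≡ u ⬝ᵥ N [MOD m]) : v ⬝ᵥ N ≤ x ⬝ᵥ N :=
      not_lt.1 fun l => l.not_ge (v2 (by simpa [Nat.ModEq] using hx) l.le)
    have v4 : D v := (hD _).2 fun ⟨x, hx⟩ => by
      have := v3 x (hx ▸ v1)
      omega
    have v5 := v3 c (hc ▸ Nat.ModEq.refl _)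
    have v6 : v ⬝ᵥ N < u ⬝ᵥ N := by omega
    rw [e2, e2, d0 v4, u2] at v6
    have v7 : v ⬝ᵥ n ≤ u ⬝ᵥ n := by
      rw [e1, e1, d0 v4, u2]
      by_contra! l
      nlinarith [Nat.mul_le_mul_left (1 + K * m) l, Nat.mul_le_mul_left m (tb u u1),
        Nat.zero_le (m * (v ⬝ᵥ t))]
    obtain ⟨k, hk⟩ := (Nat.modEq_iff_dvd' v7).1 ((cg v).symm.trans (v1.trans (cg u)))
    refine ⟨v + Pi.single o k, ?_, by simpa [po, to'] using v6⟩
    rw [add_dotProduct, single_dotProduct, ho, mul_comm]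
    omega
  choose! ρ ρ1 ρ2 using rho
  refine ⟨N, M.card, ⟨?_, fun i a q r => ?_, ⟨m0.ne', Pi.single o 1, by simp [No]⟩, ?_⟩, U,
    ⟨M.image fun u => (u, ρ u), fun a b => ⟨fun q => ?_, fun q => ?_⟩, card_image_le⟩,
    low (fun i => m0.trans_le (gN i)) U M (fun u hu b hb => (hD b).1 ((mM.1 hu).2.2.2 b hb))
      fun u hu => ?_, (card_filter_le _ _).trans (by simp)⟩
  · obtain ⟨B, hB⟩ := h.fin.bddAbove
    have (r : ℕ) : ∃ a, a ⬝ᵥ n = r + (B + 1) * m := by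
      by_contra q
      have : r + (B + 1) * m ≤ B := hB q
      nlinarith
    choose f hf using this
    refine (Set.finite_lt_nat (∑ r ∈ range m, f r ⬝ᵥ N)).subset fun x hx =>
      show x < _ from not_le.1 fun l => hx ?_
    have l2 := (single_le_sum (f := fun r => f r ⬝ᵥ N) (fun _ _ => Nat.zero_le _)
      (mem_range.2 (Nat.mod_lt x m0))).trans l
    obtain ⟨k, hk⟩ := (Nat.modEq_iff_dvd' l2).1 ((cg _).trans (by simp [hf, Nat.ModEq]))
    refine ⟨f (x % m) + Pi.single o k, ?_⟩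
    rw [add_dotProduct, single_dotProduct, No, mul_comm]
    omega
  · have c1 := cg a
    have c2 := cg (Pi.single i 1)
    have c3 := e2 (Pi.single i 1)
    have c4 := tb (Pi.single i 1) fun j => by by_cases r : j = i <;> simp [r]; omega
    simp only [single_dotProduct, one_mul] at c2 c3 c4
    by_cases s : i = o
    · subst s
      rw [e2, No, r] at q
      have q1 : a ⬝ᵥ p = 0 := by
        by_contra z
        have : 1 ≤ K := hK ▸ (Nat.mul_pos m0 (Nat.pow_pos m0)).trans_le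
          (single_le_sum (f := fun i : Fin e => m * m ^ i.1) (fun _ _ => Nat.zero_le _) (mem_univ i))
        nlinarith [Nat.mul_le_mul_left (1 + K * m) (Nat.pos_of_ne_zero z), Nat.mul_le_mul_right m this,
          Nat.zero_le (m * (a ⬝ᵥ t))]
      have q2 : a = 0 := funext fun j => by
        have := e1 a
        rw [q1, r, dotProduct, zero_mul, zero_add, sum_eq_zero_iff] at this
        exact (mul_eq_zero.1 (this j (mem_univ _))).resolve_right (m0.trans_le (ge j)).ne'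
      simp [q2] at q
      omega
    · have pi : p i = n i := by simp [hp, s]
      rw [Pi.single_eq_of_ne (Ne.symm s), pi, ← q, e2] at c3
      have l : a ⬝ᵥ p ≤ n i := by
        by_contra! l
        nlinarith [Nat.mul_le_mul_left (1 + K * m) l, Nat.mul_le_mul_left m c4,
          Nat.zero_le (m * (a ⬝ᵥ t)), Nat.zero_le (a o * m)]
      obtain ⟨k, hk⟩ := (Nat.modEq_iff_dvd' l).1 (show a ⬝ᵥ p ≡ n i [MOD m] from
        Nat.ModEq.trans (by simp [e1, Nat.ModEq]) (c1.symm.trans (q ▸ c2)))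
      refine h.min i (Function.update a o k) ?_ (by simp [s, r])
      rw [e1, Function.update_self, mul_comm, show Function.update a o k ⬝ᵥ p = a ⬝ᵥ p from
        sum_congr rfl fun j _ => by by_cases z : j = o <;> simp [z, po]]
      omega
  · rintro _ ⟨q, a, rfl⟩
    obtain ⟨i, -, q⟩ := exists_ne_zero_of_sum_ne_zero (s := univ) (f := fun i => a i * N i) q
    exact ((gN i).trans (Nat.le_mul_of_pos_left _ (Nat.pos_of_ne_zero (left_ne_zero_of_mul q)))).trans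
      (single_le_sum (f := fun i => a i * N i) (fun _ _ => Nat.zero_le _) (mem_univ i))
  · induction q with
    | of x y q =>
      obtain ⟨u, hu, z⟩ := mem_image.1 q
      cases z
      exact ρ1 _ hu
    | refl => rfl
    | symm _ ih => exact ih.symm
    | trans _ _ i1 i2 => exact i1.trans i2
    | add _ _ i1 i2 => rw [add_dotProduct, add_dotProduct, i1, i2]
  · have nf (s) (a) (ha : (1 + K * m) * (a ⬝ᵥ p) + m * (a ⬝ᵥ t) = s) : ∃ v k, D v ∧
        addConGen (fun x y => (x, y) ∈ M.image fun u => (u, ρ u)) a (v + Pi.single o k) ∧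
        a ⬝ᵥ n = v ⬝ᵥ n + k * m := by
      induction s using Nat.strong_induction_on generalizing a with
      | _ s ih =>
      have z : a = Function.update a o 0 + Pi.single o (a o) := funext fun j => by
        by_cases r : j = o <;> simp [r]
      by_cases d : D (Function.update a o 0)
      · refine ⟨_, a o, d, z ▸ AddCon.refl _ _, ?_⟩
        rw [← ho, ← single_dotProduct, ← add_dotProduct, ← z]
      obtain ⟨u, u1, u2⟩ := exists_minimal_le_of_wellFoundedLT (fun u => ¬D u) _ d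
      have u3 (b) (hb : b < u) : D b := not_not.1 (u2.not_prop_of_lt hb)
      have hu : u ∈ M := mM.2 ⟨fun i => not_lt.1 fun l => n1 i (u3 _ (lt_of_le_of_ne (sl u i m l.le)
        fun r => by simp [← r] at l)), by simpa using u1 o, u2.1, u3⟩
      obtain ⟨c, rfl⟩ := exists_add_of_le (u1.trans (le_self_add.trans z.ge))
      have := ρ2 u hu
      obtain ⟨v, k, v1, v2, v3⟩ := ih _ (by
        rw [← ha]
        simp only [add_dotProduct, mul_add]
        omega) (ρ u + c) rfl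
      refine ⟨v, k, v1, AddCon.trans _ (AddCon.add _ (AddConGen.Rel.of _ _ (mem_image_of_mem _ hu))
        (AddCon.refl _ c)) v2, ?_⟩
      rw [← v3, add_dotProduct, add_dotProduct, ρ1 u hu]
    obtain ⟨v, k, v1, v2, v3⟩ := nf _ a rfl
    obtain ⟨w, j, w1, w2, w3⟩ := nf _ b rfl
    have c1 : v ⬝ᵥ N ≡ w ⬝ᵥ N [MOD m] := (cg v).trans (Nat.ModEq.trans (by
      simpa [Nat.ModEq] using congrArg (· % m) (v3.symm.trans (q.trans w3))) (cg w).symm)
    obtain rfl := U v w ((hD v).1 v1) (le_antisymm (mn v1 w c1.symm) (mn w1 v c1))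
    obtain rfl : k = j := Nat.eq_of_mul_eq_mul_right m0 (by omega)
    exact AddCon.trans _ v2 (AddCon.symm _ w2)
  · obtain ⟨c, hc⟩ := not_not.1 (mt (hD u).2 (mM.1 hu).2.2.1)
    exact ⟨c + Pi.single o 1, fun q => by simpa using (mM.1 q).2.1, by simp [hc, No]⟩

theorem result (e m : ℕ) (h : e = 1 ∧ m = 1 ∨ 2 ≤ e ∧ e ≤ m) :
    ∃ n, NS e m n ∧ (∀ n', NS e m n' → eta n' ≤ eta n) ∧ UF m n := by
  have ex : NS e m fun i => m + i := by
    have lo (a : Fin e → ℕ) (i) : a i * (m + i) ≤ a ⬝ᵥ fun i => m + i :=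
      single_le_sum (f := fun i : Fin e => a i * (m + i)) (fun _ _ => Nat.zero_le _) (mem_univ i)
    have nz (a : Fin e → ℕ) (q : (a ⬝ᵥ fun i => m + i) ≠ 0) : ∃ j, 1 ≤ a j := by
      obtain ⟨j, -, q⟩ := exists_ne_zero_of_sum_ne_zero q
      exact ⟨j, Nat.pos_of_ne_zero (left_ne_zero_of_mul q)⟩
    refine ⟨(Set.finite_lt_nat (m * m)).subset fun x hx => show x < _ from not_le.1 fun l => hx ?_,
      fun i a q r => ?_, ⟨by omega, Pi.single ⟨0, by omega⟩ 1, by simp⟩, ?_⟩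
    · rcases h with ⟨rfl, rfl⟩ | ⟨h1, h2⟩
      · exact ⟨fun _ => x, by simp [dotProduct]⟩
      have q1 := Nat.mod_lt x (show 0 < m by omega)
      have q2 := (Nat.le_div_iff_mul_le (show 0 < m by omega)).2 l
      obtain ⟨y, hy⟩ := Nat.exists_eq_add_of_le (q1.le.trans q2)
      have q3 := Nat.div_add_mod x m
      refine ⟨Pi.single ⟨0, by omega⟩ y + Pi.single ⟨1, by omega⟩ (x % m), ?_⟩
      rw [add_dotProduct, single_dotProduct, single_dotProduct]
      rw [hy] at q3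
      simp only
      nlinarith
    · obtain ⟨j, hj⟩ := nz a (by omega)
      obtain ⟨c, rfl⟩ := exists_add_of_le (show Pi.single j 1 ≤ a from fun k => by
        by_cases z : k = j <;> simp [z, hj])
      rw [add_dotProduct, single_dotProduct, one_mul] at q
      have ij : j ≠ i := by rintro rfl; simp at r
      obtain ⟨k, hk⟩ := nz c fun z => ij (Fin.ext (by omega))
      have := lo c k
      have := Nat.le_mul_of_pos_left (m + k) hk
      have := i.2
      omega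
    · rintro _ ⟨q, a, rfl⟩
      obtain ⟨j, hj⟩ := nz a q
      have := lo a j
      have := Nat.le_mul_of_pos_left (m + j) hj
      omega
  have up (n) (hn : NS e m n) : eta n ≤ (m + 1) ^ e := by
    obtain ⟨-, k, -, -, ⟨R, r1, r2⟩, -, r3⟩ := main hn
    exact (show eta n ≤ R.card from Nat.sInf_le ⟨R, r1, rfl⟩).trans (r2.trans r3)
  obtain ⟨_, ⟨n, hn, rfl⟩, mx⟩ := (show (eta '' {n | NS e m n}).Finite from
    (Set.finite_le_nat ((m + 1) ^ e)).subset (by rintro _ ⟨n, hn, rfl⟩; exact up n hn)).exists_maximal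
    ⟨_, _, ex, rfl⟩
  obtain ⟨N, k, h1, h2, ⟨R, r1, r2⟩, h3, -⟩ := main hn
  obtain ⟨-, -, -, -, ⟨R', r3, -⟩, -⟩ := main h1
  obtain ⟨Q, q1, q2⟩ : eta N ∈ {k | ∃ R, Gen N R ∧ R.card = k} := Nat.sInf_mem ⟨_, R', r3, rfl⟩
  refine ⟨N, h1, fun n' hn' => ?_, h2⟩
  have a1 : eta n ≤ R.card := Nat.sInf_le ⟨R, r1, rfl⟩
  have a2 := h3 Q q1
  have a3 := @mx _ ⟨n', hn', rfl⟩
  omega

end Pool.Agent.Results.MP_e1d67a_co.Apery
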